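import Pool.Agent.Q110.RS.Fin
import Pool.Agent.Q225.MG.Mat
import Pool.Agent.Q120.MG.D6

/-!
# Random subsets of the primes: all exponents
-/

set_option autoImplicit false

namespace Pool.Agent.Q120.RSX

open Filter Finset MeasureTheory ProbabilityTheory Pool.Agent.Q110.RS
open Pool.Agent.H510R2.Maier (cntP)
open scoped ENNReal Topology

theorem cnt_eq (n Y : ℕ) : cntP Nat.Prime n Y = ((Ioc n (n + Y)).filter Nat.Prime).card := by
  classical
  rw [Pool.Agent.H510R2.Maier.cntP_eq]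
  refine Finset.card_bij (fun h _ => n + h) ?_ ?_ ?_
  · intro h hh
    rw [Finset.mem_filter, Finset.mem_Icc] at hh
    rw [Finset.mem_filter, Finset.mem_Ioc]
    exact ⟨by omega, hh.2⟩
  · intro a _ b _ hab
    omega
  · intro b hb
    rw [Finset.mem_filter, Finset.mem_Ioc] at hb
    exact ⟨b - n, by rw [Finset.mem_filter, Finset.mem_Icc]; exact ⟨by omega, by rw [show n + (b - n) = b by omega]; exact hb.2⟩, by omega⟩

theorem not_summable {p lam κ₀ C : ℝ} (hp : 0 < p) (hlam : 0 < lam) (hκ₀ : 0 < κ₀)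
    (hmat : ∀ η : ℝ, 0 < η → ∀ᶠ x : ℕ in atTop,
      (x : ℝ) ^ (1 - η) ≤ (((Icc 1 x).filter (fun n : ℕ =>
        (((Ioc n (n + ⌊C * (Real.log n) ^ (2 + lam)⌋₊)).filter Nat.Prime).card : ℝ) ≤ κ₀ * (C * (Real.log n) ^ (2 + lam - 1)))).card : ℝ))
    (hC : 0 < C) (h : κ₀ * C * p < 1) :
    ¬ Summable fun n => Q (lpw (2 + lam)) (ret p lam) C n / lpw (2 + lam) n := by
  intro hs
  have hpl : lam = 0 → p < 1 := fun h0 => absurd h0 hlam.ne'
  have hκ0 : 0 < κ₀ * C := mul_pos hκ₀ hC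
  have hθ : κ₀ * C * rho p lam < 1 := by
    unfold rho
    rw [if_neg hlam.ne']
    exact h
  obtain ⟨θ, hθ0, hθ1, hfp⟩ := few_prob hp hlam.le hpl hκ0 hθ
  obtain ⟨N0, hN0⟩ := eventually_atTop.1 hfp
  obtain ⟨η, hη⟩ : ∃ η, η = (1 - θ) / 2 := ⟨_, rfl⟩
  have hη0 : 0 < η := by rw [hη]; linarith
  have h3 := hmat η hη0
  have hterm : ∀ n, 0 ≤ Q (lpw (2 + lam)) (ret p lam) C n / lpw (2 + lam) n := fun n =>
    div_nonneg (Q_nonneg (ret_le p lam) C n) (lpw_nonneg _ n)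
  obtain ⟨T, hT⟩ : ∃ T, T = ∑' n, Q (lpw (2 + lam)) (ret p lam) C n / lpw (2 + lam) n := ⟨_, rfl⟩
  have hT0 : 0 ≤ T := by rw [hT]; exact tsum_nonneg hterm
  have h4 := pow_growth (2 + lam) η (2 * T + 1) hη0
  have h5 := pow_growth 0 (1 - η) (2 * (N0 + 3)) (by rw [hη]; linarith)
  obtain ⟨x, hx1, hx2, hx3, hx4⟩ := (h3.and (h4.and (h5.and (eventually_ge_atTop 3)))).exists
  have hx0 : (0 : ℝ) < x := by exact_mod_cast (by omega : 0 < x)
  have hlx : 1 ≤ Real.log x := log_ge_one hx4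
  rw [Real.rpow_zero, mul_one] at hx3
  obtain ⟨F, hF⟩ : ∃ F, F = (Icc 1 x).filter (fun n : ℕ =>
        (((Ioc n (n + ⌊C * (Real.log n) ^ (2 + lam)⌋₊)).filter Nat.Prime).card : ℝ) ≤ κ₀ * (C * (Real.log n) ^ (2 + lam - 1))) := ⟨_, rfl⟩
  have hFc : (x : ℝ) ^ (1 - η) ≤ F.card := by
    rw [hF]
    exact hx1
  obtain ⟨F', hF'⟩ : ∃ F', F' = F.filter (fun n => N0 + 3 ≤ n) := ⟨_, rfl⟩
  have h6 : ∀ n ∈ F', (x : ℝ) ^ (-θ) / (Real.log x) ^ (2 + lam) ≤
      Q (lpw (2 + lam)) (ret p lam) C n / lpw (2 + lam) n := by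
    intro n hn
    rw [hF', Finset.mem_filter, hF, Finset.mem_filter, Finset.mem_Icc] at hn
    obtain ⟨⟨⟨hn2, hn3⟩, hn4⟩, hn1⟩ := hn
    have hn0 : (0 : ℝ) < n := by exact_mod_cast (by omega : 0 < n)
    have hnx : (n : ℝ) ≤ x := by exact_mod_cast hn3
    have hln : 0 < Real.log n := Real.log_pos (by exact_mod_cast (by omega : 1 < n))
    have hlnx : Real.log n ≤ Real.log x := Real.log_le_log hn0 hnx
    have h7 : (x : ℝ) ^ (-θ) ≤ Q (lpw (2 + lam)) (ret p lam) C n := by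
      have h8 := hN0 n (by omega) ⌊C * (Real.log n) ^ (2 + lam)⌋₊ (by
        rw [cnt_eq]
        refine hn4.trans (le_of_eq ?_)
        rw [show 2 + lam - 1 = 1 + lam by ring]
        ring)
      refine le_trans ?_ h8
      exact Real.rpow_le_rpow_of_nonpos hn0 hnx (by linarith)
    apply div_le_div₀ (Q_nonneg (ret_le p lam) C n) h7
    · exact Real.rpow_pos_of_pos hln _
    · exact Real.rpow_le_rpow hln.le hlnx (by linarith)
  have h7 := Finset.card_nsmul_le_sum _ _ _ h6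
  have h8 : ∑ n ∈ F', Q (lpw (2 + lam)) (ret p lam) C n / lpw (2 + lam) n ≤ T := by
    rw [hT]
    exact hs.sum_le_tsum _ fun n _ => hterm n
  rw [nsmul_eq_mul] at h7
  have h9 : (x : ℝ) ^ (1 - η) / 2 ≤ (F'.card : ℝ) := by
    have h10 : F.card ≤ F'.card + (N0 + 3) := by
      have h11 : F ⊆ F' ∪ range (N0 + 3) := by
        intro n hn
        rw [Finset.mem_union, hF', Finset.mem_filter, Finset.mem_range]
        by_cases h12 : N0 + 3 ≤ n
        · exact Or.inl ⟨hn, h12⟩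
        · exact Or.inr (by omega)
      refine (Finset.card_le_card h11).trans ((Finset.card_union_le _ _).trans ?_)
      rw [Finset.card_range]
    have h12 : (F.card : ℝ) ≤ (F'.card : ℝ) + (N0 + 3) := by exact_mod_cast h10
    linarith
  have hlxu : 0 < (Real.log x) ^ (2 + lam) := Real.rpow_pos_of_pos (by linarith) _
  have h10 : (x : ℝ) ^ (1 - η) / 2 * ((x : ℝ) ^ (-θ) / (Real.log x) ^ (2 + lam)) ≤ T :=
    (mul_le_mul_of_nonneg_right h9 (by positivity)).trans (h7.trans h8)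
  have h11 : (x : ℝ) ^ (1 - η) * (x : ℝ) ^ (-θ) = (x : ℝ) ^ η := by
    rw [← Real.rpow_add hx0]
    congr 1
    rw [hη]
    ring
  have h12 : (x : ℝ) ^ η / (2 * (Real.log x) ^ (2 + lam)) ≤ T := by
    calc (x : ℝ) ^ η / (2 * (Real.log x) ^ (2 + lam)) =
        (x : ℝ) ^ (1 - η) / 2 * ((x : ℝ) ^ (-θ) / (Real.log x) ^ (2 + lam)) := by
          rw [← h11]
          ring
      _ ≤ T := h10
  rw [div_le_iff₀ (by positivity)] at h12
  nlinarith

/-- For every `lam > 0` there is `κ < 1` such that the constant is at least `1 / (κ p)` for all `p ≤ 1`. -/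
theorem Lam_all (hm : Pool.Agent.Q120.MG.MAT) {lam : ℝ} (hlam : 0 < lam) : ∃ κ : ℝ, 0 < κ ∧ κ < 1 ∧ ∀ p : ℝ, 0 < p →
    ENNReal.ofReal (1 / (κ * p)) ≤ Lam (lpw (2 + lam)) (ret p lam) := by
  obtain ⟨κ, hκ0, hκ1, hκ⟩ := hm (2 + lam) (by linarith)
  refine ⟨κ, hκ0, hκ1, fun p hp => ?_⟩
  apply le_sInf
  rintro x ⟨C, hC, rfl, hs⟩
  apply ENNReal.ofReal_le_ofReal
  by_contra hcon
  push Not at hcon
  refine not_summable hp hlam hκ0 (fun η hη => hκ C η hC hη) hC ?_ hs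
  rw [lt_div_iff₀ (by positivity)] at hcon
  nlinarith

end Pool.Agent.Q120.RSX
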